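import Pool.Agent.H91.LA.Own
import Pool.Agent.H68.OWN.Npl
import Pool.Agent.H1.GEN.Clx
import Pool.Agent.H35.LBK.Lbk

/-!
# The velocity of the active coordinate is alive behind all its first digits

`AlJ`: the digits `n, …, n'` of the velocity of `k` over the charts of `b` have the entropy `ν`, given
the exact point and the first `n` digits. `alj_of_act`: from (ACT) for one interval. `act_mesh`: at all
small scales, every interval of the mesh is alive. `alive_jet`: the class form, for all small scales.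
-/

set_option autoImplicit false

namespace Pool.MM91

open Finset Real MvPolynomial
open Pool.Agent.H49.Ent Pool.Agent.H32.Dense Pool.STK Pool.KA Pool.KSAT Pool.K2S Pool.PB Pool.GEN
open Pool.S6C Pool.LA91
open Pool.OWN68 (floor_sub_le CH_pair CH_cond_add)

variable {m : ℕ}

/-- **Alive**: the digits `n, …, n'` of the velocity of `k` over the charts of `b`. -/
def AlJ (S : PCl m) (k : Fin m) (b p n n' ν : ℝ) : Prop :=
  ∀ (e₀ : ℝ) (K : ℕ), Bas S (fun J F A => ∀ u u',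
    (qJet m ∅ k 1 b p n).P K e₀ J F A u → (qJet m ∅ k 1 b p n').P K e₀ J F A u' →
    ν * J ≤ CH (Pool.Agent.H49.Ent.cond F.p A True) u' (fun ω => (u ω, (F.X J ω, F.W ω))))

/-- The velocity over a closed function of the time. -/
theorem ojet_diff {J : ℕ} {F : Fam m J} {k : Fin m} {G : MvPolynomial (Option (Fin m)) ℝ}
    (hG : ∀ b b' : Option (Fin m) → ℝ, b none = b' none →
      (∀ i ∈ (∅ : Finset (Fin m)), b (some i) = b' (some i)) → eval b G = eval b' G)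
    {ω ω' : F.Ω} (hT : F.T ω = F.T ω') :
    ojet F k 1 G ω - ojet F k 1 G ω' = F.d ω k - F.d ω' k := by
  unfold ojet
  have e0 : bt F ω none = bt F ω' none := by
    have e1 : ∀ ν : F.Ω, bt F ν none = F.t ν := fun _ => rfl
    rw [e1, e1]
    unfold Fam.t
    rw [hT]
  have e2 : jet 1 G (bt F ω) (bd F ω) = jet 1 G (bt F ω') (bd F ω') :=
    jet_congr hG 1 e0 (fun i hi => absurd hi (Finset.notMem_empty i)) rfl
      (fun i hi => absurd hi (Finset.notMem_empty i))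
  have e3 : ∀ b v : Option (Fin m) → ℝ, jet 1 (X (some k)) b v = v (some k) := by
    intro b v
    unfold jet
    rw [aeval_X]
    unfold Pool.LA91.lp
    simp
  rw [jet_sub, jet_sub, e2, e3, e3]
  have e4 : ∀ ν : F.Ω, bd F ν (some k) = F.d ν k := fun _ => rfl
  rw [e4, e4]
  ring

section one

variable {J : ℕ} {F : Fam m J} {A : F.Ω → Prop} {k : Fin m} {b p : ℝ} {K : ℕ} {e₀ : ℝ}

/-- The digits of the velocity from the code. -/
theorem d_of_code (hA : 0 < Pe F.p A) {n : ℝ} {u : F.Ω → ℤ}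
    (hu : (qJet m ∅ k 1 b p n).P K e₀ J F A u) {j : ℕ} (hj : (j : ℝ) ≤ n * J) :
    CH (Pool.Agent.H49.Ent.cond F.p A True) (fun ω => F.D j ω k)
      (fun ω => (u ω, (F.X J ω, F.W ω))) ≤ Real.log 5 := by
  obtain ⟨-, V, z, z', G, hl, hu'⟩ := hu
  have e5 : Real.log (2 * ((1 + 1 : ℕ) : ℝ) + 1) = Real.log 5 := by norm_num
  rw [← e5]
  refine CH_pair (isLaw_cond F.isLaw hA) _ _ fun ω ω' hω hω' e => ?_
  have a1 := of_cond_pos hω
  have a2 := of_cond_pos hω'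
  have eu : u ω = u ω' := (Prod.ext_iff.mp e).1
  have ep : ptr F J ω = ptr F J ω' := (Prod.ext_iff.mp e).2
  have eT : F.T ω = F.T ω' := (Prod.ext_iff.mp (Prod.ext_iff.mp ep).2).1
  rw [hu' ω a1, hu' ω' a2, ← hl.cls ω a1, ← hl.cls ω' a2, ← ep] at eu
  have h1 := Int.abs_sub_lt_one_of_floor_eq_floor eu
  rw [← mul_sub, ojet_diff (hl.dep _) eT, abs_mul, abs_of_pos (by positivity)] at h1
  show |⌊(2 : ℝ) ^ j * F.d ω k⌋ - ⌊(2 : ℝ) ^ j * F.d ω' k⌋| ≤ ((1 + 1 : ℕ) : ℤ)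
  refine floor_sub_le ?_
  rw [← mul_sub, abs_mul, abs_of_pos (by positivity)]
  have h2 : (2 : ℝ) ^ j ≤ 2 ^ (n * J) := by
    rw [← Real.rpow_natCast]
    exact Real.rpow_le_rpow_of_exponent_le (by norm_num) hj
  have h3 := mul_le_mul_of_nonneg_right h2 (abs_nonneg (F.d ω k - F.d ω' k))
  push_cast
  linarith

/-- The code from the digits of the velocity. -/
theorem code_of_d (hA : 0 < Pe F.p A) {n : ℝ} {u : F.Ω → ℤ}
    (hu : (qJet m ∅ k 1 b p n).P K e₀ J F A u) {j : ℕ} (hj : n * J ≤ (j : ℝ) + 1) :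
    CH (Pool.Agent.H49.Ent.cond F.p A True) u
      (fun ω => (F.D j ω, (F.X J ω, F.W ω))) ≤ Real.log 7 := by
  obtain ⟨-, V, z, z', G, hl, hu'⟩ := hu
  have e5 : Real.log (2 * ((2 + 1 : ℕ) : ℝ) + 1) = Real.log 7 := by norm_num
  rw [← e5]
  refine CH_pair (isLaw_cond F.isLaw hA) _ _ fun ω ω' hω hω' e => ?_
  have a1 := of_cond_pos hω
  have a2 := of_cond_pos hω'
  have eD : F.D j ω k = F.D j ω' k := congrFun (Prod.ext_iff.mp e).1 k
  have ep : ptr F J ω = ptr F J ω' := (Prod.ext_iff.mp e).2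
  have eT : F.T ω = F.T ω' := (Prod.ext_iff.mp (Prod.ext_iff.mp ep).2).1
  rw [hu' ω a1, hu' ω' a2, ← hl.cls ω a1, ← hl.cls ω' a2, ← ep]
  refine floor_sub_le ?_
  rw [← mul_sub, ojet_diff (hl.dep _) eT, abs_mul, abs_of_pos (by positivity)]
  have h1 : |(2 : ℝ) ^ j * F.d ω k - (2 : ℝ) ^ j * F.d ω' k| < 1 :=
    Int.abs_sub_lt_one_of_floor_eq_floor eD
  rw [← mul_sub, abs_mul, abs_of_pos (by positivity)] at h1
  have h2 : (2 : ℝ) ^ (n * J) ≤ 2 ^ j * 2 := by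
    rw [← pow_succ, ← Real.rpow_natCast]
    exact Real.rpow_le_rpow_of_exponent_le (by norm_num) (by push_cast; exact hj)
  have h3 := mul_le_mul_of_nonneg_right h2 (abs_nonneg (F.d ω k - F.d ω' k))
  push_cast
  linarith

end one

/-- **Alive from (ACT) for one interval.** -/
theorem alj_of_act {S : PCl m}
    (hpos : ∀ (τ : ℝ) (J : ℕ) (F : Fam m J) (A : F.Ω → Prop), S.St τ J F A → 0 < Pe F.p A)
    {N : ℚ → ℚ → ℝ} {k : Fin m} (hact : ActB N S k) {q q' : ℚ} (h0 : 0 ≤ q) (h1 : q ≤ q')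
    (h2 : q' ≤ 1) {b p n n' ν : ℝ} (hn : n ≤ q) (hn' : (q' : ℝ) ≤ n')
    (hν : ν < N q q' * Real.log 2) : AlJ S k b p n n' ν := by
  intro e₀ K
  have hl2 : 0 < Real.log 2 := Real.log_pos one_lt_two
  obtain ⟨h, hh⟩ : ∃ h, h = (N q q' * Real.log 2 - ν) / (2 * Real.log 2) := ⟨_, rfl⟩
  have hh0 : 0 < h := by
    rw [hh]
    exact div_pos (by linarith) (by positivity)
  have hh1 : h * Real.log 2 = (N q q' * Real.log 2 - ν) / 2 := by
    rw [hh]
    field_simp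
  obtain ⟨J₁, hJ₁⟩ := exists_nat_ge ((Real.log 5 + Real.log 7) / (h * Real.log 2))
  refine Bas.mono J₁ ((hact q q' h0 h1 h2 h hh0).and (pos_bas hpos)) ?_
  rintro J hJ F A ⟨ha, hA⟩ u u' hu hu'
  have hJ0 : (0 : ℝ) ≤ J := Nat.cast_nonneg J
  have hJ1 : Real.log 5 + Real.log 7 ≤ h * Real.log 2 * J := by
    have g1 : (J₁ : ℝ) ≤ J := by exact_mod_cast hJ
    have g2 := hJ₁.trans g1
    rw [div_le_iff₀ (by positivity)] at g2
    linarith
  have hp := isLaw_cond F.isLaw hA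
  have hp0 := hp.nonneg
  have c1 := d_of_code hA hu' (j := ⌊(q' : ℝ) * J⌋₊) (by
    have g1 : (0 : ℝ) ≤ q' := by exact_mod_cast h0.trans h1
    have g2 := Nat.floor_le (mul_nonneg g1 hJ0)
    have g3 := mul_le_mul_of_nonneg_right hn' hJ0
    linarith)
  have c2 := code_of_d hA hu (j := ⌊(q : ℝ) * J⌋₊) (by
    have g1 := (Nat.lt_floor_add_one ((q : ℝ) * J)).le
    have g2 := mul_le_mul_of_nonneg_right hn hJ0
    linarith)
  -- the digits given the code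
  have d1 := CH_le_add hp0 (fun ω => F.D ⌊(q' : ℝ) * J⌋₊ ω k) u'
    (fun ω => (u ω, (F.X J ω, F.W ω)))
  have d2 : CH (Pool.Agent.H49.Ent.cond F.p A True) (fun ω => F.D ⌊(q' : ℝ) * J⌋₊ ω k)
      (fun ω => (u' ω, (u ω, (F.X J ω, F.W ω)))) ≤
      CH (Pool.Agent.H49.Ent.cond F.p A True) (fun ω => F.D ⌊(q' : ℝ) * J⌋₊ ω k)
      (fun ω => (u' ω, (F.X J ω, F.W ω))) :=
    CH_mono_cond hp0 fun ω ω' _ _ e => by
      simp only [Prod.mk.injEq] at e ⊢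
      exact ⟨e.1, e.2.2⟩
  have d3 := CH_cond_add hp0 (fun ω => F.D ⌊(q' : ℝ) * J⌋₊ ω k) u
    (fun ω => (F.D ⌊(q : ℝ) * J⌋₊ ω, (F.X J ω, F.W ω)))
  have d4 : CH (Pool.Agent.H49.Ent.cond F.p A True) (fun ω => F.D ⌊(q' : ℝ) * J⌋₊ ω k)
      (fun ω => (u ω, (F.D ⌊(q : ℝ) * J⌋₊ ω, (F.X J ω, F.W ω)))) ≤
      CH (Pool.Agent.H49.Ent.cond F.p A True) (fun ω => F.D ⌊(q' : ℝ) * J⌋₊ ω k)
      (fun ω => (u ω, (F.X J ω, F.W ω))) :=
    CH_mono_cond hp0 fun ω ω' _ _ e => by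
      simp only [Prod.mk.injEq] at e ⊢
      exact ⟨e.1, e.2.2⟩
  have ha' : (N q q' - h) * Real.log 2 * J ≤ CH (Pool.Agent.H49.Ent.cond F.p A True)
      (fun ω => F.D ⌊(q' : ℝ) * J⌋₊ ω k) (fun ω => (F.D ⌊(q : ℝ) * J⌋₊ ω, (F.X J ω, F.W ω))) := ha
  have e1 : (N q q' - h) * Real.log 2 * J - h * Real.log 2 * J = ν * J := by
    have : (N q q' - h) * Real.log 2 - h * Real.log 2 = ν := by
      rw [sub_mul, hh1]
      ring
    rw [← sub_mul, this]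
  linarith

/-- **All intervals of the mesh are alive** at the small scales. -/
theorem act_mesh {N : ℚ → ℚ → ℝ} {al : ℝ} {g₀ : ℝ → ℝ} (hal : 0 < al)
    (hg₀ : ∀ ε : ℝ, 0 < ε → 0 < g₀ ε) (hact : ActM N al g₀) {C δ : ℝ} (hC : 0 < C) (hδ : 0 < δ) :
    ∃ c : ℝ, 0 < c ∧ ∃ R₀ : ℝ, 0 < R₀ ∧ ∀ R : ℝ, 0 < R → R < R₀ → ∀ n n' : ℝ, 0 ≤ n →
      n + δ * R ≤ n' → n' ≤ C * R → n' ≤ 1 → ∃ q q' : ℚ, 0 ≤ q ∧ q ≤ q' ∧ q' ≤ 1 ∧ n ≤ q ∧
        (q' : ℝ) ≤ n' ∧ c * R < N q q' := by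
  obtain ⟨M, hM⟩ := exists_nat_ge (4 * C / δ)
  have hM0 : (0 : ℝ) < M := lt_of_lt_of_le (by positivity) hM
  have hMn : 0 < M := by exact_mod_cast hM0
  have hMd : 4 * C ≤ δ * M := by
    rw [div_le_iff₀ hδ] at hM
    linarith
  obtain ⟨ε, hε⟩ : ∃ ε, ε = min (al / 2) (1 / (2 * M)) := ⟨_, rfl⟩
  have hε0 : 0 < ε := by
    rw [hε]
    exact lt_min (by linarith) (by positivity)
  have hεa : ε ≤ al / 2 := by rw [hε]; exact min_le_left _ _
  have hεM : ε * M ≤ 1 / 2 := by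
    have h1 : ε ≤ 1 / (2 * M) := by rw [hε]; exact min_le_right _ _
    calc ε * M ≤ 1 / (2 * M) * M := mul_le_mul_of_nonneg_right h1 hM0.le
      _ = 1 / 2 := by field_simp
  have hg := hg₀ ε hε0
  refine ⟨al * C / (4 * M), by positivity, g₀ ε / (2 * C), by positivity, ?_⟩
  intro R hR hRR n n' hn hnn hnC hn1
  have hCR : 0 < C * R := by positivity
  obtain ⟨g, g1, g2⟩ := exists_rat_btwn (show C * R < 2 * C * R by linarith)
  have hg0 : (0 : ℝ) < g := hCR.trans g1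
  have hgg : (g : ℝ) ≤ g₀ ε := by
    have h1 : 2 * C * R < g₀ ε := by
      rw [lt_div_iff₀ (by positivity)] at hRR
      linarith
    linarith
  have hcard := hact ε hε0 g (by exact_mod_cast hg0) hgg M
  have hc0 : ((range M).filter fun i : ℕ => N (i * (g / M)) ((i + 1) * (g / M)) <
      (al - ε) * ((g : ℝ) / M)).card = 0 := by
    have h1 : (((range M).filter fun i : ℕ => N (i * (g / M)) ((i + 1) * (g / M)) <
      (al - ε) * ((g : ℝ) / M)).card : ℝ) < 1 := by linarith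
    exact_mod_cast Nat.lt_one_iff.1 (by exact_mod_cast h1)
  rw [Finset.card_eq_zero, Finset.filter_eq_empty_iff] at hc0
  obtain ⟨ℓ, hℓ⟩ : ∃ ℓ : ℚ, ℓ = g / M := ⟨_, rfl⟩
  have hℓr : (ℓ : ℝ) = g / M := by rw [hℓ]; push_cast; rfl
  have hℓ0 : (0 : ℝ) < ℓ := by rw [hℓr]; positivity
  have hℓM : (ℓ : ℝ) * M = g := by rw [hℓr]; field_simp
  have hℓδ : 2 * (ℓ : ℝ) ≤ δ * R := by
    have h1 : 2 * (ℓ : ℝ) * M ≤ δ * R * M := by
      have h2 : δ * R * M = δ * M * R := by ring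
      rw [h2, mul_assoc, hℓM]
      have h3 := mul_le_mul_of_nonneg_right hMd hR.le
      linarith
    exact le_of_mul_le_mul_right h1 hM0
  obtain ⟨i, hi⟩ : ∃ i : ℕ, i = ⌈n / (ℓ : ℝ)⌉₊ := ⟨_, rfl⟩
  have hi1 : n ≤ i * (ℓ : ℝ) := by
    have h1 := Nat.le_ceil (n / (ℓ : ℝ))
    rw [← hi, div_le_iff₀ hℓ0] at h1
    exact h1
  have hi2 : (i : ℝ) * ℓ < n + ℓ := by
    have h1 := Nat.ceil_lt_add_one (div_nonneg hn hℓ0.le)
    rw [← hi] at h1
    have h2 := mul_lt_mul_of_pos_right h1 hℓ0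
    rw [add_mul, one_mul, div_mul_cancel₀ _ hℓ0.ne'] at h2
    exact h2
  have hi3 : ((i : ℝ) + 1) * ℓ ≤ n' := by
    rw [add_mul, one_mul]
    linarith
  have hi4 : i < M := by
    have h1 : ((i : ℝ) + 1) * ℓ < M * ℓ := by
      rw [mul_comm (M : ℝ), hℓM]
      linarith
    have h2 := lt_of_mul_lt_mul_right h1 hℓ0.le
    have h3 : ((i + 1 : ℕ) : ℝ) < M := by push_cast; exact h2
    have h4 : i + 1 < M := by exact_mod_cast h3
    omega
  have hN := hc0 (Finset.mem_range.2 hi4)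
  push Not at hN
  have hq0 : (0 : ℚ) < ℓ := by exact_mod_cast hℓ0
  refine ⟨i * ℓ, (i + 1) * ℓ, by positivity, by nlinarith, ?_, ?_, ?_, ?_⟩
  · have h1 : (((i + 1) * ℓ : ℚ) : ℝ) ≤ 1 := by
      push_cast
      linarith
    exact_mod_cast h1
  · push_cast
    exact hi1
  · push_cast
    exact hi3
  · rw [← hℓ, ← hℓr] at hN
    refine lt_of_lt_of_le ?_ hN
    have h1 : al / 2 * (ℓ : ℝ) ≤ (al - ε) * ℓ :=
      mul_le_mul_of_nonneg_right (by linarith) hℓ0.le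
    refine lt_of_lt_of_le ?_ h1
    rw [hℓr, div_mul_eq_mul_div, div_mul_eq_mul_div, div_lt_div_iff₀ (by positivity) (by norm_num)]
    have h2 : al * C * R * 2 < al * (g / M) * (4 * M) := by
      have e1 : al * ((g : ℝ) / M) * (4 * M) = 4 * al * g := by field_simp
      rw [e1]
      have h3 : al * (C * R) < al * g := mul_lt_mul_of_pos_left g1 hal
      have h4 : 0 < al * (g : ℝ) := by positivity
      linarith
    exact h2

/-- **The velocity of the active coordinate is alive**, at all small scales. -/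
theorem alive_jet {s : Fin m → ℝ} {d : ℕ → ℝ} {al : ℝ} {g₀ : ℝ → ℝ} {e : ℝ} {K₀ : ℕ}
    {N : ℚ → ℚ → ℝ} {S : PCl m} (hal : 0 < al) (hg₀ : ∀ ε : ℝ, 0 < ε → 0 < g₀ ε)
    (hC : ClX s d al g₀ e K₀ N S) {k : Fin m} (hk : (k : ℕ) = 0) {C δ : ℝ} (hC0 : 0 < C)
    (hδ : 0 < δ) :
    ∃ c : ℝ, 0 < c ∧ ∃ R₀ : ℝ, 0 < R₀ ∧ ∀ R : ℝ, 0 < R → R < R₀ → ∀ n n' : ℝ, 0 ≤ n →
      n + δ * R ≤ n' → n' ≤ C * R → n' ≤ 1 → ∀ b p : ℝ, AlJ S k b p n n' (c * R) := by
  have hl2 : 0 < Real.log 2 := Real.log_pos one_lt_two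
  obtain ⟨c, hc, R₀, hR₀, h⟩ := act_mesh hal hg₀ hC.actm hC0 hδ
  refine ⟨c * Real.log 2, by positivity, R₀, hR₀, fun R hR hRR n n' h0 h1 h2 h3 b p => ?_⟩
  obtain ⟨q, q', a1, a2, a3, a4, a5, a6⟩ := h R hR hRR n n' h0 h1 h2 h3
  refine alj_of_act hC.pos (hC.actb k hk) a1 a2 a3 a4 a5 ?_
  have := mul_lt_mul_of_pos_right a6 hl2
  linarith

end Pool.MM91
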