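import Pool.Agent.H91.MM.One

/-!
# Two copies over the record with the datum `A` have different velocities
-/

set_option autoImplicit false

namespace Pool.MM91

open Finset Real
open Pool.Agent.H49.Ent Pool.Agent.H32.Dense Pool.STK Pool.OWN68 Pool.PR46
open Pool.BFL (Pb)

/-- **Alive on all large events, `A` few given the record**: the hypothesis `hal` of `M1H.m1`. -/
theorem hal_of {Ω Λ Γ 𝒜 : Type} [Fintype Ω] {p : Ω → ℝ} (hp : IsLaw p) (L : Ω → Λ) (G : Ω → Γ)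
    (A : Λ → 𝒜) (E : Λ → ℤ) {B δ e₁ : ℝ} (hB : 0 < B) (hδ : 0 < δ)
    (hfew : ∀ E₀ : Ω → Prop, δ / 2 ≤ law p E₀ True →
      CH (cond p E₀ True) (fun ω => A (L ω)) G ≤ e₁)
    (hal : ∀ E₀ : Ω → Prop, δ / 2 ≤ law p E₀ True →
      Real.log (6 / δ) + e₁ < CH (cond p E₀ True) (fun ω => ⌊(E (L ω) : ℝ) / B⌋) G) :
    Pb (glue p p (fun ω => (A (L ω), G ω)) (fun ω => (A (L ω), G ω)))
      (fun w => |(E (L w.2) : ℝ) - E (L w.1)| < B) ≤ δ := by
  have h1 := alive_pairs hp (fun ω => (A (L ω), G ω)) (fun ω => (E (L ω) : ℝ)) hB hδ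
    fun E₀ hE₀ => by
      have h2 := hfew E₀ hE₀
      have h3 := hal E₀ hE₀
      have h4 := CH_cond_add (cond_nonneg hp.nonneg E₀ True) (fun ω => ⌊(E (L ω) : ℝ) / B⌋)
        (fun ω => A (L ω)) G
      linarith
  exact h1.le

end Pool.MM91
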