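import Pool.Agent.H46.PR.Mm
import Pool.Agent.H46.PR.Par

/-!
# Data of the line do not see the position: one velocity, not full

`E` is one velocity, nearly independent of the record `G` of a point of the line (given the window
datum `C`), and alive: two copies over the record have different velocities. It need not be full.
`A` is a function of the line which is few given the record. `m1_pos`: the position is full given the
time, `A` and `C`. `m1`: the position `X` is full given `A`, the velocity `E` and `C`. Proof: two hops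
over the record with `A`, and a fresh time on the last line.
-/

set_option autoImplicit false

namespace Pool.MM91

open Finset Real
open Pool.Agent.H49.Ent Pool.Agent.H32.Dense Pool.STK Pool.OWN68 Pool.PR46
open Pool.BFL (Pb)

/-- The position at the time `τ`. -/
noncomputable def y1 {Λ : Type} (M : ℕ) (X E : Λ → ℤ) (l : Λ) (τ : ℤ) : ℤ :=
  ⌊(X l : ℝ) + τ * E l / M⌋

/-- The hypotheses of `m1`. -/
structure M1H {Ω Λ Γ 𝒞 𝒜 : Type} [Fintype Ω] (p : Ω → ℝ) (M K : ℕ) (e F : ℝ) (L : Ω → Λ)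
    (t : Ω → ℤ) (G : Ω → Γ) (C : Λ → 𝒞) (A : Λ → 𝒜) (X E : Λ → ℤ) : Prop where
  tb : ∀ ω, 0 < p ω → |t ω| ≤ (M : ℤ)
  gt : ∀ ω ω', 0 < p ω → 0 < p ω' → G ω = G ω' → t ω = t ω' ∧ C (L ω) = C (L ω') ∧
    |((X (L ω) : ℝ) + t ω * E (L ω) / M) - ((X (L ω') : ℝ) + t ω * E (L ω') / M)| ≤ K
  full : Real.log (2 * M + 1) - e ≤ CH p t L
  few : CH p (fun ω => A (L ω)) G ≤ e
  free : F - e ≤ CH p (fun ω => E (L ω)) G
  free1 : CH p (fun ω => E (L ω)) (fun ω => C (L ω)) ≤ F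

section

variable {Ω Λ Γ 𝒞 𝒜 : Type} [Fintype Ω] {p : Ω → ℝ} {M K : ℕ} {e F : ℝ} {L : Ω → Λ}
    {t : Ω → ℤ} {G : Ω → Γ} {C : Λ → 𝒞} {A : Λ → 𝒜} {X E : Λ → ℤ}

theorem M1H.e0 (hp : IsLaw p) (H : M1H p M K e F L t G C A X E) : 0 ≤ e :=
  (CH_nonneg hp.nonneg _ _).trans H.few

/-- The velocity is free of the record with `A`. -/
theorem M1H.free2 (hp : IsLaw p) (H : M1H p M K e F L t G C A X E) :
    F - 2 * e ≤ CH p (fun ω => E (L ω)) (fun ω => (A (L ω), G ω)) := by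
  have h1 := CH_cond_add hp.nonneg (fun ω => E (L ω)) (fun ω => A (L ω)) G
  have h2 := H.few
  have h3 := H.free
  linarith

/-- The displacement after two hops. -/
theorem M1H.dis (H : M1H p M K e F L t G C A X E) {ω₀ ω₁ ω₁' ω₂ : Ω} (p0 : 0 < p ω₀)
    (p1 : 0 < p ω₁) (p1' : 0 < p ω₁') (p2 : 0 < p ω₂) (e1 : G ω₀ = G ω₁) (e2 : L ω₁ = L ω₁')
    (e3 : G ω₁' = G ω₂) (τ : ℤ) :
    |((X (L ω₂) : ℝ) + τ * E (L ω₂) / M) - ((X (L ω₀) : ℝ) + (t ω₀ * E (L ω₀) +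
      (t ω₁' - t ω₀) * E (L ω₁) + (τ - t ω₁') * E (L ω₂)) / M)| ≤ 2 * K := by
  obtain ⟨a1, -, a3⟩ := H.gt _ _ p0 p1 e1
  obtain ⟨b1, -, b3⟩ := H.gt _ _ p1' p2 e3
  rw [← e2] at b3
  have e4 : ((X (L ω₂) : ℝ) + τ * E (L ω₂) / M) - ((X (L ω₀) : ℝ) + (t ω₀ * E (L ω₀) +
      (t ω₁' - t ω₀) * E (L ω₁) + (τ - t ω₁') * E (L ω₂)) / M) =
      -(((X (L ω₁) : ℝ) + t ω₁' * E (L ω₁) / M) - ((X (L ω₂) : ℝ) + t ω₁' * E (L ω₂) / M)) -
      (((X (L ω₀) : ℝ) + t ω₀ * E (L ω₀) / M) - ((X (L ω₁) : ℝ) + t ω₀ * E (L ω₁) / M)) := by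
    ring
  rw [e4]
  refine (abs_sub _ _).trans ?_
  rw [abs_neg]
  linarith

open Classical in
/-- **The position is full** given the time, `A` and `C`. -/
theorem M1H.pos (hp : IsLaw p) (hM : 1 ≤ M) (H : M1H p M K e F L t G C A X E) {B δ : ℝ}
    (hB : 0 < B)
    (hal : Pb (glue p p (fun ω => (A (L ω), G ω)) (fun ω => (A (L ω), G ω)))
      (fun w => |(E (L w.2) : ℝ) - E (L w.1)| < B) ≤ δ) :
    Real.log (2 * M + 1) - (12 * e + δ * Real.log (4 * M + 1) +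
      Real.log (2 * ((4 * K + 1) * M / B) + 1)) ≤
    CH p (fun ω => y1 M X E (L ω) (t ω)) (fun ω => (t ω, (A (L ω), C (L ω)))) := by
  have h0 := hp.nonneg
  have he := H.e0 hp
  have hMr : (1 : ℝ) ≤ M := by exact_mod_cast hM
  have hM0 : (0 : ℝ) < M := by linarith
  obtain ⟨G', hG'⟩ : ∃ G' : Ω → 𝒜 × Γ, G' = fun ω => (A (L ω), G ω) := ⟨_, rfl⟩
  have hgg : ∀ {ω ω' : Ω}, G' ω = G' ω' → A (L ω) = A (L ω') ∧ G ω = G ω' := fun {ω ω'} h => by
    rw [hG'] at h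
    exact Prod.ext_iff.mp h
  rw [← hG'] at hal
  have hf2 := H.free2 hp
  rw [← hG'] at hf2
  have hL4 := P4_law hp L G' G'
  have hAC : ∀ ω ω', 0 < p ω → 0 < p ω' → G' ω = G' ω' →
      (A (L ω), C (L ω)) = (A (L ω'), C (L ω')) ∧ () = () := fun ω ω' h h' hg => by
    obtain ⟨g1, g2⟩ := hgg hg
    exact ⟨Prod.ext g1 (H.gt ω ω' h h' g2).2.1, rfl⟩
  have hI : CH p (fun ω => E (L ω)) (fun ω => ((), (A (L ω), C (L ω)))) - 2 * e ≤
      CH p (fun ω => E (L ω)) G' := by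
    have h1 : CH p (fun ω => E (L ω)) (fun ω => ((), (A (L ω), C (L ω)))) ≤
        CH p (fun ω => E (L ω)) (fun ω => C (L ω)) :=
      CH_mono_cond h0 fun ω ω' _ _ hz => (Prod.ext_iff.mp (Prod.ext_iff.mp hz).2).2
    have h2 := H.free1
    linarith
  have hfu : Real.log (2 * M + 1) - 2 * e ≤ CH p t L := by
    have := H.full
    linarith
  have key := full_two hp L t G' G' (fun l => (A l, C l)) E (fun _ => ()) (fun _ => ())
    hAC hAC (fun _ _ _ _ _ => rfl)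
    (fun {A' T} _ {q} hq pr Z' hpr => CH_le_box hq (fun a => t (pr a)) Z' fun a ha =>
        H.tb _ (hpr a ha)) hfu hI hI
  obtain ⟨P, hP⟩ : ∃ P, P = P4 p L G' G' := ⟨_, rfl⟩
  obtain ⟨Z, hZ⟩ : ∃ Z : (((Ω × Ω) × Ω) × Ω) × Ω → ℤ × (ℤ × (ℤ × Λ)),
    Z = fun w => (t w.2, (E (L w.1.2), (E (L w.1.1.1.2), L w.1.1.1.1))) := ⟨_, rfl⟩
  rw [← hP, ← hZ] at key
  have hPl : IsLaw P := by rw [hP]; exact hL4
  have hP0 := hPl.nonneg
  obtain ⟨Y, hY⟩ : ∃ Y : (((Ω × Ω) × Ω) × Ω) × Ω → ℤ, Y = fun w => y1 M X E (L w.2) (t w.2) :=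
    ⟨_, rfl⟩
  -- the support
  have hsup : ∀ w, 0 < P w → (0 < p w.1.1.1.1 ∧ 0 < p w.1.1.1.2 ∧ 0 < p w.1.1.2 ∧ 0 < p w.1.2 ∧
      0 < p w.2) ∧ G' w.1.1.1.1 = G' w.1.1.1.2 ∧ L w.1.1.1.2 = L w.1.1.2 ∧
      G' w.1.1.2 = G' w.1.2 ∧ L w.1.2 = L w.2 := by
    intro w hw
    rw [hP] at hw
    obtain ⟨b1, b2, b3⟩ := P4_pos hp L G' G' hw
    obtain ⟨a1, a2, a3, a4, a5, a6, a7⟩ := P3_sup hp L G' G' b1
    exact ⟨⟨a1, a2, a3, a4, b2⟩, a5, a6, a7, b3⟩
  -- the position of the last line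
  have s1 : CH P Y (fun w => (t w.2, (A (L w.2), C (L w.2)))) =
      CH p (fun ω => y1 M X E (L ω) (t ω)) (fun ω => (t ω, (A (L ω), C (L ω)))) := by
    rw [hP, hY]
    exact (P4_s hp L G' G').CH (fun ω => y1 M X E (L ω) (t ω))
      (fun ω => (t ω, (A (L ω), C (L ω))))
  have s2 : CH P Y Z ≤ CH P Y (fun w => (t w.2, (A (L w.2), C (L w.2)))) := by
    refine CH_mono_cond hP0 fun w w' hw hw' hz => ?_
    obtain ⟨⟨a1, a2, a3, a4, a5⟩, a6, a7, a8, a9⟩ := hsup w hw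
    obtain ⟨⟨b1, b2, b3, b4, b5⟩, b6, b7, b8, b9⟩ := hsup w' hw'
    rw [hZ] at hz
    have z1 : t w.2 = t w'.2 := (Prod.ext_iff.mp hz).1
    have z2 : L w.1.1.1.1 = L w'.1.1.1.1 :=
      (Prod.ext_iff.mp (Prod.ext_iff.mp (Prod.ext_iff.mp hz).2).2).2
    have c1 : A (L w.2) = A (L w.1.1.1.1) := by
      rw [← a9, ← (hgg a8).1, ← a7, (hgg a6).1]
    have c2 : A (L w'.2) = A (L w'.1.1.1.1) := by
      rw [← b9, ← (hgg b8).1, ← b7, (hgg b6).1]
    have d1 : C (L w.2) = C (L w.1.1.1.1) := by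
      rw [← a9, ← (H.gt _ _ a3 a4 (hgg a8).2).2.1, ← a7, (H.gt _ _ a1 a2 (hgg a6).2).2.1]
    have d2 : C (L w'.2) = C (L w'.1.1.1.1) := by
      rw [← b9, ← (H.gt _ _ b3 b4 (hgg b8).2).2.1, ← b7, (H.gt _ _ b1 b2 (hgg b6).2).2.1]
    show (t w.2, (A (L w.2), C (L w.2))) = (t w'.2, (A (L w'.2), C (L w'.2)))
    rw [z1, c1, c2, d1, d2, z2]
  have s3 := CH_le_add hP0 (fun w => (t w.1.1.1.1, t w.1.1.2)) Y Z
  have s4 := CH_chain2 hP0 (fun w : (((Ω × Ω) × Ω) × Ω) × Ω => t w.1.1.1.1)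
    (fun w => t w.1.1.2) (fun w => (Y w, Z w))
  have s5 : CH P (fun w => t w.1.1.1.1) (fun w => (Y w, Z w)) ≤ Real.log (2 * M + 1) :=
    CH_le_box hPl _ _ fun w hw => H.tb _ (hsup w hw).1.1
  -- the second time
  obtain ⟨bad, hbad⟩ : ∃ bad : (((Ω × Ω) × Ω) × Ω) × Ω → Prop, bad = fun w =>
    |(E (L w.1.2) : ℝ) - E (L w.1.1.1.2)| < B := ⟨_, rfl⟩
  have hq0 : 0 ≤ (4 * K + 1) * M / B := by positivity
  have s6 : CH P (fun w => t w.1.1.2) (fun w => (t w.1.1.1.1, (Y w, Z w))) ≤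
      Ex P (fun w => Real.log (2 * (if bad w then 2 * (M : ℝ) else (4 * K + 1) * M / B) + 1)) := by
    refine CH_le_int hP0 hPl.sum_one _ _ _ fun w w' hw hw' hz => ?_
    obtain ⟨⟨a1, a2, a3, a4, a5⟩, a6, a7, a8, a9⟩ := hsup w hw
    obtain ⟨⟨b1, b2, b3, b4, b5⟩, b6, b7, b8, b9⟩ := hsup w' hw'
    try dsimp only
    push_cast
    split_ifs with hb
    · have t1 : |(t w.1.1.2 : ℝ)| ≤ M := by exact_mod_cast H.tb _ a3
      have t2 : |(t w'.1.1.2 : ℝ)| ≤ M := by exact_mod_cast H.tb _ b3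
      refine (abs_sub _ _).trans ?_
      linarith
    · rw [hbad] at hb
      push Not at hb
      have z0 : t w.1.1.1.1 = t w'.1.1.1.1 := (Prod.ext_iff.mp hz).1
      have z1 : Y w = Y w' := (Prod.ext_iff.mp (Prod.ext_iff.mp hz).2).1
      have z2 : Z w = Z w' := (Prod.ext_iff.mp (Prod.ext_iff.mp hz).2).2
      rw [hZ] at z2
      have z3 : t w.2 = t w'.2 := (Prod.ext_iff.mp z2).1
      have z4 : E (L w.1.2) = E (L w'.1.2) := (Prod.ext_iff.mp (Prod.ext_iff.mp z2).2).1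
      have z5 : E (L w.1.1.1.2) = E (L w'.1.1.1.2) :=
        (Prod.ext_iff.mp (Prod.ext_iff.mp (Prod.ext_iff.mp z2).2).2).1
      have z6 : L w.1.1.1.1 = L w'.1.1.1.1 :=
        (Prod.ext_iff.mp (Prod.ext_iff.mp (Prod.ext_iff.mp z2).2).2).2
      have d1 := H.dis a1 a2 a3 a4 (hgg a6).2 a7 (hgg a8).2 (t w.2)
      have d2 := H.dis b1 b2 b3 b4 (hgg b6).2 b7 (hgg b8).2 (t w'.2)
      rw [hY] at z1
      have z7 : ⌊(X (L w.2) : ℝ) + t w.2 * E (L w.2) / M⌋ =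
        ⌊(X (L w'.2) : ℝ) + t w'.2 * E (L w'.2) / M⌋ := z1
      rw [← a9, ← b9] at z7
      have g1 := Int.floor_le ((X (L w.1.2) : ℝ) + t w.2 * E (L w.1.2) / M)
      have g2 := Int.lt_floor_add_one ((X (L w.1.2) : ℝ) + t w.2 * E (L w.1.2) / M)
      have g3 := Int.floor_le ((X (L w'.1.2) : ℝ) + t w'.2 * E (L w'.1.2) / M)
      have g4 := Int.lt_floor_add_one ((X (L w'.1.2) : ℝ) + t w'.2 * E (L w'.1.2) / M)
      rw [← z7] at g3 g4
      rw [← z0, ← z3, ← z4, ← z5, ← z6] at d2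
      rw [abs_le] at d1 d2
      have k1 : |((t w.1.1.2 : ℝ) - t w'.1.1.2) * ((E (L w.1.2) : ℝ) - E (L w.1.1.1.2)) / M| ≤
          4 * K + 1 := by
        have e5 : ((t w.1.1.2 : ℝ) - t w'.1.1.2) * ((E (L w.1.2) : ℝ) - E (L w.1.1.1.2)) / M =
            ((X (L w.1.1.1.1) : ℝ) + (t w.1.1.1.1 * E (L w.1.1.1.1) +
              (t w'.1.1.2 - t w.1.1.1.1) * E (L w.1.1.1.2) +
              (t w.2 - t w'.1.1.2) * E (L w.1.2)) / M) -
            ((X (L w.1.1.1.1) : ℝ) + (t w.1.1.1.1 * E (L w.1.1.1.1) +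
              (t w.1.1.2 - t w.1.1.1.1) * E (L w.1.1.1.2) +
              (t w.2 - t w.1.1.2) * E (L w.1.2)) / M) := by ring
        rw [e5, abs_le]
        rw [← z3, ← z4] at g3 g4
        constructor <;> linarith [d1.1, d1.2, d2.1, d2.2]
      rw [abs_div, abs_mul, abs_of_pos hM0, div_le_iff₀ hM0] at k1
      rw [le_div_iff₀ hB]
      refine le_trans ?_ k1
      exact mul_le_mul_of_nonneg_left hb (abs_nonneg _)
  have s7 : Ex P (fun w => Real.log (2 * (if bad w then 2 * (M : ℝ) else (4 * K + 1) * M / B) + 1))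
      ≤ Real.log (2 * ((4 * K + 1) * M / B) + 1) + δ * Real.log (4 * M + 1) := by
    have hb1 : Pb P bad ≤ δ := by
      refine le_trans ?_ hal
      rw [← Pb_marg (P4_pair hp L G' G') (fun w => |(E (L w.2) : ℝ) - E (L w.1)| < B), ← hP]
      refine Pb_imp hP0 fun w hw hb => ?_
      rw [hbad] at hb
      have h1 := (hsup w hw).2.2.1
      show |(E (L w.1.2) : ℝ) - E (L w.1.1.2)| < B
      rw [← h1]
      exact hb
    have hl1 : 0 ≤ Real.log (4 * M + 1) := Real.log_nonneg (by linarith)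
    have hl2 : 0 ≤ Real.log (2 * ((4 * K + 1) * M / B) + 1) := Real.log_nonneg (by linarith)
    have h1 : Ex P (fun w => Real.log (2 * (if bad w then 2 * (M : ℝ) else
        (4 * K + 1) * M / B) + 1)) ≤ Ex P (fun w => Real.log (2 * ((4 * K + 1) * M / B) + 1) +
          (if bad w then 1 else 0) * Real.log (4 * M + 1)) := by
      refine Ex_mono hP0 fun w _ => ?_
      split_ifs
      · have e5 : 2 * (2 * (M : ℝ)) + 1 = 4 * M + 1 := by ring
        rw [e5]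
        linarith
      · linarith
    refine h1.trans ?_
    have h2 : Ex P (fun w => Real.log (2 * ((4 * K + 1) * M / B) + 1) +
        (if bad w then 1 else 0) * Real.log (4 * M + 1)) =
        Real.log (2 * ((4 * K + 1) * M / B) + 1) + Pb P bad * Real.log (4 * M + 1) := by
      rw [← Pb_sum P bad]
      unfold Ex
      simp_rw [mul_add]
      rw [Finset.sum_add_distrib, ← Finset.sum_mul, hPl.sum_one, one_mul]
      congr 1
      rw [Finset.sum_mul]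
      refine Finset.sum_congr rfl fun w _ => ?_
      split_ifs <;> ring
    rw [h2]
    have := mul_le_mul_of_nonneg_right hb1 hl1
    linarith
  rw [← s1]
  linarith

/-- The position is few given the record. -/
theorem M1H.yG (hp : IsLaw p) (H : M1H p M K e F L t G C A X E) :
    CH p (fun ω => y1 M X E (L ω) (t ω)) G ≤ Real.log (2 * K + 3) := by
  refine (CH_le_int hp.nonneg hp.sum_one _ G (fun _ => K + 1) fun ω ω' hω hω' hg => ?_).trans
    (le_of_eq ?_)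
  · obtain ⟨a1, a2, a3⟩ := H.gt ω ω' hω hω' hg
    unfold y1
    rw [← a1]
    have g1 := Int.floor_le ((X (L ω) : ℝ) + t ω * E (L ω) / M)
    have g2 := Int.lt_floor_add_one ((X (L ω) : ℝ) + t ω * E (L ω) / M)
    have g3 := Int.floor_le ((X (L ω') : ℝ) + t ω * E (L ω') / M)
    have g4 := Int.lt_floor_add_one ((X (L ω') : ℝ) + t ω * E (L ω') / M)
    rw [abs_le] at a3
    push_cast
    rw [abs_le]
    constructor <;> linarith [a3.1, a3.2]
  · rw [Ex_const hp.sum_one]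
    congr 1
    ring

/-- **Data of the line which are few given the record do not see the position**: the position is full
given the velocity, `A` and `C`. -/
theorem M1H.m1 (hp : IsLaw p) (hM : 1 ≤ M) (H : M1H p M K e F L t G C A X E) {B δ : ℝ}
    (hB : 0 < B)
    (hal : Pb (glue p p (fun ω => (A (L ω), G ω)) (fun ω => (A (L ω), G ω)))
      (fun w => |(E (L w.2) : ℝ) - E (L w.1)| < B) ≤ δ) :
    Real.log (2 * M + 1) - (14 * e + δ * Real.log (4 * M + 1) +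
      Real.log (2 * ((4 * K + 1) * M / B) + 1) + Real.log (2 * K + 3)) ≤
    CH p (fun ω => X (L ω)) (fun ω => (A (L ω), (E (L ω), C (L ω)))) := by
  have h0 := hp.nonneg
  have h1 := H.pos hp hM hB hal
  have h2 := mi_sym h0 (fun ω => y1 M X E (L ω) (t ω)) (fun ω => E (L ω))
    (fun ω => (t ω, (A (L ω), C (L ω))))
  have h3 : CH p (fun ω => E (L ω)) (fun ω => (t ω, (A (L ω), C (L ω)))) ≤ F :=
    (CH_mono_cond h0 fun ω ω' _ _ hz => (Prod.ext_iff.mp (Prod.ext_iff.mp hz).2).2).trans H.free1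
  have h4 : CH p (fun ω => E (L ω)) (fun ω => (y1 M X E (L ω) (t ω), (A (L ω), G ω))) ≤
      CH p (fun ω => E (L ω)) (fun ω => (y1 M X E (L ω) (t ω), (t ω, (A (L ω), C (L ω))))) := by
    refine CH_mono_cond h0 fun ω ω' hω hω' hz => ?_
    have z1 : y1 M X E (L ω) (t ω) = y1 M X E (L ω') (t ω') := (Prod.ext_iff.mp hz).1
    have z2 : A (L ω) = A (L ω') := (Prod.ext_iff.mp (Prod.ext_iff.mp hz).2).1
    have z3 : G ω = G ω' := (Prod.ext_iff.mp (Prod.ext_iff.mp hz).2).2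
    obtain ⟨z4, z5, -⟩ := H.gt ω ω' hω hω' z3
    show (y1 M X E (L ω) (t ω), (t ω, (A (L ω), C (L ω)))) =
      (y1 M X E (L ω') (t ω'), (t ω', (A (L ω'), C (L ω'))))
    rw [z1, z2, z4, z5]
  have h5 := CH_cond_add h0 (fun ω => E (L ω)) (fun ω => y1 M X E (L ω) (t ω))
    (fun ω => (A (L ω), G ω))
  have h6 : CH p (fun ω => y1 M X E (L ω) (t ω)) (fun ω => (A (L ω), G ω)) ≤
      Real.log (2 * K + 3) :=
    (CH_mono_cond h0 fun ω ω' _ _ hz => (Prod.ext_iff.mp hz).2).trans (H.yG hp)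
  have h7 := H.free2 hp
  have h8 : CH p (fun ω => y1 M X E (L ω) (t ω))
      (fun ω => (E (L ω), (t ω, (A (L ω), C (L ω))))) ≤
      CH p (fun ω => X (L ω)) (fun ω => (E (L ω), (t ω, (A (L ω), C (L ω))))) := by
    refine CH_mono_left h0 fun ω ω' _ _ hz => ?_
    have z1 : X (L ω) = X (L ω') := (Prod.ext_iff.mp hz).1
    have z2 : E (L ω) = E (L ω') := (Prod.ext_iff.mp (Prod.ext_iff.mp hz).2).1
    have z3 : t ω = t ω' := (Prod.ext_iff.mp (Prod.ext_iff.mp (Prod.ext_iff.mp hz).2).2).1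
    show y1 M X E (L ω) (t ω) = y1 M X E (L ω') (t ω')
    unfold y1
    rw [z1, z2, z3]
  have h9 : CH p (fun ω => X (L ω)) (fun ω => (E (L ω), (t ω, (A (L ω), C (L ω))))) ≤
      CH p (fun ω => X (L ω)) (fun ω => (A (L ω), (E (L ω), C (L ω)))) := by
    refine CH_mono_cond h0 fun ω ω' _ _ hz => ?_
    have z2 : E (L ω) = E (L ω') := (Prod.ext_iff.mp hz).1
    have z3 : A (L ω) = A (L ω') :=
      (Prod.ext_iff.mp (Prod.ext_iff.mp (Prod.ext_iff.mp hz).2).2).1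
    have z4 : C (L ω) = C (L ω') :=
      (Prod.ext_iff.mp (Prod.ext_iff.mp (Prod.ext_iff.mp hz).2).2).2
    show (A (L ω), (E (L ω), C (L ω))) = (A (L ω'), (E (L ω'), C (L ω')))
    rw [z2, z3, z4]
  linarith

end

end Pool.MM91
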