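import Pool.Agent.H91.MM.One

/-!
# Data of the line do not see the position: one or two velocities, not full

`MdH`: `d` velocities `E`, a function `Ep` of the line which determines them and is nearly independent
of the record (given `C`). `core`: two hops. `m_one`, `m_two`: the position is full given `A`, `Ep` and
`C`, if two copies have different velocities (`d = 1`), or if three lines of two hops are in general
position (`d = 2`).
-/

set_option autoImplicit false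

namespace Pool.MM91

open Finset Real
open Pool.Agent.H49.Ent Pool.Agent.H32.Dense Pool.STK Pool.OWN68 Pool.PR46
open Pool.BFL (Pb)

/-- The hypotheses of `m_one`, `m_two`. -/
structure MdH {Ω Λ Γ 𝒞 𝒜 ℰ : Type} [Fintype Ω] (p : Ω → ℝ) (M K d : ℕ) (e F : ℝ) (L : Ω → Λ)
    (t : Ω → ℤ) (G : Ω → Γ) (C : Λ → 𝒞) (A : Λ → 𝒜) (Ep : Λ → ℰ) (X E : Λ → Fin d → ℤ) :
    Prop where
  tb : ∀ ω, 0 < p ω → |t ω| ≤ (M : ℤ)
  gt : ∀ ω ω', 0 < p ω → 0 < p ω' → G ω = G ω' → t ω = t ω' ∧ C (L ω) = C (L ω') ∧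
    ∀ i, |((X (L ω) i : ℝ) + t ω * E (L ω) i / M) - ((X (L ω') i : ℝ) + t ω * E (L ω') i / M)| ≤ K
  full : Real.log (2 * M + 1) - e ≤ CH p t L
  few : CH p (fun ω => A (L ω)) G ≤ e
  ed : ∀ ω ω', 0 < p ω → 0 < p ω' → Ep (L ω) = Ep (L ω') → E (L ω) = E (L ω')
  free : F - e ≤ CH p (fun ω => Ep (L ω)) G
  free1 : CH p (fun ω => Ep (L ω)) (fun ω => C (L ω)) ≤ F

section

variable {Ω Λ Γ 𝒞 𝒜 ℰ : Type} [Fintype Ω] {p : Ω → ℝ} {M K d : ℕ} {e F : ℝ} {L : Ω → Λ}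
    {t : Ω → ℤ} {G : Ω → Γ} {C : Λ → 𝒞} {A : Λ → 𝒜} {Ep : Λ → ℰ} {X E : Λ → Fin d → ℤ}

theorem MdH.e0 (hp : IsLaw p) (H : MdH p M K d e F L t G C A Ep X E) : 0 ≤ e :=
  (CH_nonneg hp.nonneg _ _).trans H.few

/-- The velocity is free of the record with `A`. -/
theorem MdH.free2 (hp : IsLaw p) (H : MdH p M K d e F L t G C A Ep X E) :
    F - 2 * e ≤ CH p (fun ω => Ep (L ω)) (fun ω => (A (L ω), G ω)) := by
  have h1 := CH_cond_add hp.nonneg (fun ω => Ep (L ω)) (fun ω => A (L ω)) G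
  have h2 := H.few
  have h3 := H.free
  linarith

/-- The displacement after two hops. -/
theorem MdH.dis (H : MdH p M K d e F L t G C A Ep X E) {ω₀ ω₁ ω₁' ω₂ : Ω} (p0 : 0 < p ω₀)
    (p1 : 0 < p ω₁) (p1' : 0 < p ω₁') (p2 : 0 < p ω₂) (e1 : G ω₀ = G ω₁) (e2 : L ω₁ = L ω₁')
    (e3 : G ω₁' = G ω₂) (τ : ℤ) (i : Fin d) :
    |((X (L ω₂) i : ℝ) + τ * E (L ω₂) i / M) - ((X (L ω₀) i : ℝ) + (t ω₀ * E (L ω₀) i +
      (t ω₁' - t ω₀) * E (L ω₁) i + (τ - t ω₁') * E (L ω₂) i) / M)| ≤ 2 * K := by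
  obtain ⟨a1, -, a3⟩ := H.gt _ _ p0 p1 e1
  obtain ⟨b1, -, b3⟩ := H.gt _ _ p1' p2 e3
  rw [← e2] at b3
  have a3 := a3 i
  have b3 := b3 i
  have e4 : ((X (L ω₂) i : ℝ) + τ * E (L ω₂) i / M) - ((X (L ω₀) i : ℝ) + (t ω₀ * E (L ω₀) i +
      (t ω₁' - t ω₀) * E (L ω₁) i + (τ - t ω₁') * E (L ω₂) i) / M) =
      -(((X (L ω₁) i : ℝ) + t ω₁' * E (L ω₁) i / M) -
        ((X (L ω₂) i : ℝ) + t ω₁' * E (L ω₂) i / M)) -
      (((X (L ω₀) i : ℝ) + t ω₀ * E (L ω₀) i / M) -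
        ((X (L ω₁) i : ℝ) + t ω₀ * E (L ω₁) i / M)) := by
    ring
  rw [e4]
  refine (abs_sub _ _).trans ?_
  rw [abs_neg]
  linarith

/-- The position is few given the record. -/
theorem MdH.yG (hp : IsLaw p) (H : MdH p M K d e F L t G C A Ep X E) :
    CH p (fun ω => yy M X E (L ω) (t ω)) G ≤ d * Real.log (2 * K + 3) := by
  refine (CH_le_vec hp.nonneg hp.sum_one _ G (fun _ => K + 1) fun ω ω' hω hω' hg i => ?_).trans
    (le_of_eq ?_)
  · obtain ⟨a1, a2, a3⟩ := H.gt ω ω' hω hω' hg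
    have a4 := a3 i
    unfold yy
    rw [← a1]
    have g1 := Int.floor_le ((X (L ω) i : ℝ) + t ω * E (L ω) i / M)
    have g2 := Int.lt_floor_add_one ((X (L ω) i : ℝ) + t ω * E (L ω) i / M)
    have g3 := Int.floor_le ((X (L ω') i : ℝ) + t ω * E (L ω') i / M)
    have g4 := Int.lt_floor_add_one ((X (L ω') i : ℝ) + t ω * E (L ω') i / M)
    rw [abs_le] at a4
    push_cast
    rw [abs_le]
    constructor <;> linarith [a4.1, a4.2]
  · rw [Ex_const hp.sum_one]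
    congr 2
    ring

/-- The record with `A`. -/
def GA (L : Ω → Λ) (G : Ω → Γ) (A : Λ → 𝒜) (ω : Ω) : 𝒜 × Γ := (A (L ω), G ω)

/-- The support of the two hops. -/
theorem MdH.sup (hp : IsLaw p) {w : (((Ω × Ω) × Ω) × Ω) × Ω}
    (hw : 0 < P4 p L (GA L G A) (GA L G A) w) :
    (0 < p w.1.1.1.1 ∧ 0 < p w.1.1.1.2 ∧ 0 < p w.1.1.2 ∧ 0 < p w.1.2 ∧ 0 < p w.2) ∧
      GA L G A w.1.1.1.1 = GA L G A w.1.1.1.2 ∧ L w.1.1.1.2 = L w.1.1.2 ∧
      GA L G A w.1.1.2 = GA L G A w.1.2 ∧ L w.1.2 = L w.2 := by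
  obtain ⟨b1, b2, b3⟩ := P4_pos hp L (GA L G A) (GA L G A) hw
  obtain ⟨a1, a2, a3, a4, a5, a6, a7⟩ := P3_sup hp L (GA L G A) (GA L G A) b1
  exact ⟨⟨a1, a2, a3, a4, b2⟩, a5, a6, a7, b3⟩

/-- The data of the two hops. -/
def zd (L : Ω → Λ) (t : Ω → ℤ) (Ep : Λ → ℰ) (w : (((Ω × Ω) × Ω) × Ω) × Ω) :
    ℤ × (ℰ × (ℰ × Λ)) := (t w.2, (Ep (L w.1.2), (Ep (L w.1.1.1.2), L w.1.1.1.1)))

/-- **Two hops**: the position of the last line sees the two times. -/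
theorem MdH.core (hp : IsLaw p) (H : MdH p M K d e F L t G C A Ep X E) :
    2 * Real.log (2 * M + 1) - 12 * e - CH (P4 p L (GA L G A) (GA L G A))
      (fun w => (t w.1.1.1.1, t w.1.1.2))
      (fun w => (yy M X E (L w.2) (t w.2), zd L t Ep w)) ≤
    CH p (fun ω => yy M X E (L ω) (t ω)) (fun ω => (t ω, (A (L ω), C (L ω)))) := by
  have h0 := hp.nonneg
  have he := H.e0 hp
  obtain ⟨G', hG'⟩ : ∃ G' : Ω → 𝒜 × Γ, G' = GA L G A := ⟨_, rfl⟩
  have hgg : ∀ {ω ω' : Ω}, G' ω = G' ω' → A (L ω) = A (L ω') ∧ G ω = G ω' := fun {ω ω'} h => by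
    rw [hG'] at h
    exact Prod.ext_iff.mp h
  have hf2 := H.free2 hp
  have hf3 : F - 2 * e ≤ CH p (fun ω => Ep (L ω)) G' := by
    rw [hG']
    exact hf2
  have hAC : ∀ ω ω', 0 < p ω → 0 < p ω' → G' ω = G' ω' →
      (A (L ω), C (L ω)) = (A (L ω'), C (L ω')) ∧ () = () := fun ω ω' h h' hg => by
    obtain ⟨g1, g2⟩ := hgg hg
    exact ⟨Prod.ext g1 (H.gt ω ω' h h' g2).2.1, rfl⟩
  have hI : CH p (fun ω => Ep (L ω)) (fun ω => ((), (A (L ω), C (L ω)))) - 2 * e ≤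
      CH p (fun ω => Ep (L ω)) G' := by
    have h1 : CH p (fun ω => Ep (L ω)) (fun ω => ((), (A (L ω), C (L ω)))) ≤
        CH p (fun ω => Ep (L ω)) (fun ω => C (L ω)) :=
      CH_mono_cond h0 fun ω ω' _ _ hz => (Prod.ext_iff.mp (Prod.ext_iff.mp hz).2).2
    have h2 := H.free1
    linarith
  have hfu : Real.log (2 * M + 1) - 2 * e ≤ CH p t L := by
    have := H.full
    linarith
  have key := full_two hp L t G' G' (fun l => (A l, C l)) Ep (fun _ => ()) (fun _ => ())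
    hAC hAC (fun _ _ _ _ _ => rfl)
    (fun {A' T} _ {q} hq pr Z' hpr => CH_le_box hq (fun a => t (pr a)) Z' fun a ha =>
        H.tb _ (hpr a ha)) hfu hI hI
  have hsup : ∀ w, 0 < P4 p L G' G' w → (0 < p w.1.1.1.1 ∧ 0 < p w.1.1.1.2 ∧ 0 < p w.1.1.2 ∧
      0 < p w.1.2 ∧ 0 < p w.2) ∧ G' w.1.1.1.1 = G' w.1.1.1.2 ∧ L w.1.1.1.2 = L w.1.1.2 ∧
      G' w.1.1.2 = G' w.1.2 ∧ L w.1.2 = L w.2 := by
    intro w hw
    rw [hG'] at hw ⊢
    exact MdH.sup hp hw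
  rw [← hG']
  obtain ⟨P, hP⟩ : ∃ P, P = P4 p L G' G' := ⟨_, rfl⟩
  have hPl : IsLaw P := by rw [hP]; exact P4_law hp L G' G'
  rw [← hP] at key hsup ⊢
  have hP0 := hPl.nonneg
  have s1 : CH P (fun w => yy M X E (L w.2) (t w.2)) (fun w => (t w.2, (A (L w.2), C (L w.2)))) =
      CH p (fun ω => yy M X E (L ω) (t ω)) (fun ω => (t ω, (A (L ω), C (L ω)))) := by
    rw [hP]
    exact (P4_s hp L G' G').CH (fun ω => yy M X E (L ω) (t ω))
      (fun ω => (t ω, (A (L ω), C (L ω))))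
  have s2 : CH P (fun w => yy M X E (L w.2) (t w.2)) (zd L t Ep) ≤
      CH P (fun w => yy M X E (L w.2) (t w.2)) (fun w => (t w.2, (A (L w.2), C (L w.2)))) := by
    refine CH_mono_cond hP0 fun w w' hw hw' hz => ?_
    obtain ⟨⟨a1, a2, a3, a4, a5⟩, a6, a7, a8, a9⟩ := hsup w hw
    obtain ⟨⟨b1, b2, b3, b4, b5⟩, b6, b7, b8, b9⟩ := hsup w' hw'
    have z1 : t w.2 = t w'.2 := (Prod.ext_iff.mp hz).1
    have z2 : L w.1.1.1.1 = L w'.1.1.1.1 :=
      (Prod.ext_iff.mp (Prod.ext_iff.mp (Prod.ext_iff.mp hz).2).2).2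
    have c1 : A (L w.2) = A (L w.1.1.1.1) := by
      rw [← a9, ← (hgg a8).1, ← a7, (hgg a6).1]
    have c2 : A (L w'.2) = A (L w'.1.1.1.1) := by
      rw [← b9, ← (hgg b8).1, ← b7, (hgg b6).1]
    have d1 : C (L w.2) = C (L w.1.1.1.1) := by
      rw [← a9, ← (H.gt _ _ a3 a4 (hgg a8).2).2.1, ← a7, (H.gt _ _ a1 a2 (hgg a6).2).2.1]
    have d2 : C (L w'.2) = C (L w'.1.1.1.1) := by
      rw [← b9, ← (H.gt _ _ b3 b4 (hgg b8).2).2.1, ← b7, (H.gt _ _ b1 b2 (hgg b6).2).2.1]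
    show (t w.2, (A (L w.2), C (L w.2))) = (t w'.2, (A (L w'.2), C (L w'.2)))
    rw [z1, c1, c2, d1, d2, z2]
  have s3 := CH_le_add hP0 (fun w => (t w.1.1.1.1, t w.1.1.2))
    (fun w => yy M X E (L w.2) (t w.2)) (zd L t Ep)
  have key' : 2 * Real.log (2 * M + 1) - 6 * (2 * e) ≤
      CH P (fun w => (t w.1.1.1.1, t w.1.1.2)) (zd L t Ep) := key
  rw [← s1]
  linarith

/-- **From the position at the time to the position at time zero.** -/
theorem MdH.fin (hp : IsLaw p) (H : MdH p M K d e F L t G C A Ep X E) :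
    CH p (fun ω => yy M X E (L ω) (t ω)) (fun ω => (t ω, (A (L ω), C (L ω)))) -
      (2 * e + d * Real.log (2 * K + 3)) ≤
    CH p (fun ω => X (L ω)) (fun ω => (A (L ω), (Ep (L ω), C (L ω)))) := by
  have h0 := hp.nonneg
  have h2 := mi_sym h0 (fun ω => yy M X E (L ω) (t ω)) (fun ω => Ep (L ω))
    (fun ω => (t ω, (A (L ω), C (L ω))))
  have h3 : CH p (fun ω => Ep (L ω)) (fun ω => (t ω, (A (L ω), C (L ω)))) ≤ F :=
    (CH_mono_cond h0 fun ω ω' _ _ hz => (Prod.ext_iff.mp (Prod.ext_iff.mp hz).2).2).trans H.free1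
  have h4 : CH p (fun ω => Ep (L ω)) (fun ω => (yy M X E (L ω) (t ω), (A (L ω), G ω))) ≤
      CH p (fun ω => Ep (L ω)) (fun ω => (yy M X E (L ω) (t ω), (t ω, (A (L ω), C (L ω))))) := by
    refine CH_mono_cond h0 fun ω ω' hω hω' hz => ?_
    have z1 : yy M X E (L ω) (t ω) = yy M X E (L ω') (t ω') := (Prod.ext_iff.mp hz).1
    have z2 : A (L ω) = A (L ω') := (Prod.ext_iff.mp (Prod.ext_iff.mp hz).2).1
    have z3 : G ω = G ω' := (Prod.ext_iff.mp (Prod.ext_iff.mp hz).2).2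
    obtain ⟨z4, z5, -⟩ := H.gt ω ω' hω hω' z3
    show (yy M X E (L ω) (t ω), (t ω, (A (L ω), C (L ω)))) =
      (yy M X E (L ω') (t ω'), (t ω', (A (L ω'), C (L ω'))))
    rw [z1, z2, z4, z5]
  have h5 := CH_cond_add h0 (fun ω => Ep (L ω)) (fun ω => yy M X E (L ω) (t ω))
    (fun ω => (A (L ω), G ω))
  have h6 : CH p (fun ω => yy M X E (L ω) (t ω)) (fun ω => (A (L ω), G ω)) ≤
      d * Real.log (2 * K + 3) :=
    (CH_mono_cond h0 fun ω ω' _ _ hz => (Prod.ext_iff.mp hz).2).trans (H.yG hp)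
  have h7 := H.free2 hp
  have h8 : CH p (fun ω => yy M X E (L ω) (t ω))
      (fun ω => (Ep (L ω), (t ω, (A (L ω), C (L ω))))) ≤
      CH p (fun ω => X (L ω)) (fun ω => (Ep (L ω), (t ω, (A (L ω), C (L ω))))) := by
    refine CH_mono_left h0 fun ω ω' hω hω' hz => ?_
    have z1 : X (L ω) = X (L ω') := (Prod.ext_iff.mp hz).1
    have z2 : E (L ω) = E (L ω') := H.ed ω ω' hω hω' (Prod.ext_iff.mp (Prod.ext_iff.mp hz).2).1
    have z3 : t ω = t ω' := (Prod.ext_iff.mp (Prod.ext_iff.mp (Prod.ext_iff.mp hz).2).2).1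
    show yy M X E (L ω) (t ω) = yy M X E (L ω') (t ω')
    funext i
    unfold yy
    rw [z1, z2, z3]
  have h9 : CH p (fun ω => X (L ω)) (fun ω => (Ep (L ω), (t ω, (A (L ω), C (L ω))))) ≤
      CH p (fun ω => X (L ω)) (fun ω => (A (L ω), (Ep (L ω), C (L ω)))) := by
    refine CH_mono_cond h0 fun ω ω' _ _ hz => ?_
    have z2 : Ep (L ω) = Ep (L ω') := (Prod.ext_iff.mp hz).1
    have z3 : A (L ω) = A (L ω') :=
      (Prod.ext_iff.mp (Prod.ext_iff.mp (Prod.ext_iff.mp hz).2).2).1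
    have z4 : C (L ω) = C (L ω') :=
      (Prod.ext_iff.mp (Prod.ext_iff.mp (Prod.ext_iff.mp hz).2).2).2
    show (A (L ω), (Ep (L ω), C (L ω))) = (A (L ω'), (Ep (L ω'), C (L ω')))
    rw [z2, z3, z4]
  linarith

end

/-! ### Counting -/

open Classical in
/-- Counting with an exceptional set. -/
theorem ch_bad {Ω S T : Type} [Fintype Ω] {q : Ω → ℝ} (hq : IsLaw q) (Y : Ω → S) (W : Ω → T)
    (F : T → Finset S) (hF : ∀ ω, 0 < q ω → Y ω ∈ F (W ω)) (bad : Ω → Prop) {a b δ : ℝ}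
    (ha : 1 ≤ a) (hb : 1 ≤ b) (h1 : ∀ ω, 0 < q ω → ¬ bad ω → ((F (W ω)).card : ℝ) ≤ a)
    (h2 : ∀ ω, 0 < q ω → ((F (W ω)).card : ℝ) ≤ b) (h3 : Pb q bad ≤ δ) :
    CH q Y W ≤ Real.log a + δ * Real.log b := by
  have h0 := hq.nonneg
  have la := Real.log_nonneg ha
  have lb := Real.log_nonneg hb
  refine (CH_le_card h0 hq.sum_one Y W F hF).trans ?_
  have g1 : Ex q (fun ω => Real.log ((F (W ω)).card)) ≤
      Ex q (fun ω => Real.log a + (if bad ω then 1 else 0) * Real.log b) := by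
    refine Ex_mono h0 fun ω hω => ?_
    have hc : (0 : ℝ) < (F (W ω)).card := by
      exact_mod_cast Finset.card_pos.mpr ⟨_, hF ω hω⟩
    split_ifs with hbd
    · have := Real.log_le_log hc (h2 ω hω)
      linarith
    · have := Real.log_le_log hc (h1 ω hω hbd)
      linarith
  refine g1.trans ?_
  have g2 : Ex q (fun ω => Real.log a + (if bad ω then 1 else 0) * Real.log b) =
      Real.log a + Pb q bad * Real.log b := by
    rw [← Pb_sum q bad]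
    unfold Ex
    simp_rw [mul_add]
    rw [Finset.sum_add_distrib, ← Finset.sum_mul, hq.sum_one, one_mul]
    congr 1
    rw [Finset.sum_mul]
    refine Finset.sum_congr rfl fun w _ => ?_
    split_ifs <;> ring
  rw [g2]
  have := mul_le_mul_of_nonneg_right h3 lb
  linarith

/-! ### The two theorems -/

section

variable {Ω Λ Γ 𝒞 𝒜 ℰ : Type} [Fintype Ω] {p : Ω → ℝ} {M K : ℕ} {e F : ℝ} {L : Ω → Λ}
    {t : Ω → ℤ} {G : Ω → Γ} {C : Λ → 𝒞} {A : Λ → 𝒜} {Ep : Λ → ℰ}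

open Classical in
/-- **One velocity**: two copies have different velocities. -/
theorem m_one (hp : IsLaw p) (hM : 1 ≤ M) {X E : Λ → Fin 1 → ℤ}
    (H : MdH p M K 1 e F L t G C A Ep X E) {B δ : ℝ} (hB : 0 < B)
    (hal : Pb (glue p p (GA L G A) (GA L G A))
      (fun w => |(E (L w.2) 0 : ℝ) - E (L w.1) 0| < B) ≤ δ) :
    Real.log (2 * M + 1) - (14 * e + δ * Real.log (4 * M + 1) +
      Real.log (2 * ((4 * K + 1) * M / B) + 1) + Real.log (2 * K + 3)) ≤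
    CH p (fun ω => X (L ω)) (fun ω => (A (L ω), (Ep (L ω), C (L ω)))) := by
  have hMr : (1 : ℝ) ≤ M := by exact_mod_cast hM
  have hM0 : (0 : ℝ) < M := by linarith
  have hc := H.core hp
  have hf := H.fin hp
  obtain ⟨P, hP⟩ : ∃ P, P = P4 p L (GA L G A) (GA L G A) := ⟨_, rfl⟩
  have hPl : IsLaw P := by rw [hP]; exact P4_law hp L _ _
  have hP0 := hPl.nonneg
  rw [← hP] at hc
  have hsup : ∀ w, 0 < P w → (0 < p w.1.1.1.1 ∧ 0 < p w.1.1.1.2 ∧ 0 < p w.1.1.2 ∧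
      0 < p w.1.2 ∧ 0 < p w.2) ∧ GA L G A w.1.1.1.1 = GA L G A w.1.1.1.2 ∧
      L w.1.1.1.2 = L w.1.1.2 ∧ GA L G A w.1.1.2 = GA L G A w.1.2 ∧ L w.1.2 = L w.2 := by
    intro w hw
    rw [hP] at hw
    exact MdH.sup hp hw
  obtain ⟨Z, hZ⟩ : ∃ Z : (((Ω × Ω) × Ω) × Ω) × Ω → (Fin 1 → ℤ) × (ℤ × (ℰ × (ℰ × Λ))),
    Z = fun w => (yy M X E (L w.2) (t w.2), zd L t Ep w) := ⟨_, rfl⟩
  rw [← hZ] at hc
  have s4 := CH_chain2 hP0 (fun w : (((Ω × Ω) × Ω) × Ω) × Ω => t w.1.1.1.1)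
    (fun w => t w.1.1.2) Z
  have s5 : CH P (fun w => t w.1.1.1.1) Z ≤ Real.log (2 * M + 1) :=
    CH_le_box hPl _ _ fun w hw => H.tb _ (hsup w hw).1.1
  -- the second time
  obtain ⟨bad, hbad⟩ : ∃ bad : (((Ω × Ω) × Ω) × Ω) × Ω → Prop, bad = fun w =>
    |(E (L w.1.2) 0 : ℝ) - E (L w.1.1.1.2) 0| < B := ⟨_, rfl⟩
  have hq0 : 0 ≤ (4 * K + 1) * M / B := by positivity
  have s6 : CH P (fun w => t w.1.1.2) (fun w => (t w.1.1.1.1, Z w)) ≤
      Ex P (fun w => Real.log (2 * (if bad w then 2 * (M : ℝ) else (4 * K + 1) * M / B) + 1)) := by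
    refine CH_le_int hP0 hPl.sum_one _ _ _ fun w w' hw hw' hz => ?_
    obtain ⟨⟨a1, a2, a3, a4, a5⟩, a6, a7, a8, a9⟩ := hsup w hw
    obtain ⟨⟨b1, b2, b3, b4, b5⟩, b6, b7, b8, b9⟩ := hsup w' hw'
    try dsimp only
    push_cast
    split_ifs with hb
    · have t1 : |(t w.1.1.2 : ℝ)| ≤ M := by exact_mod_cast H.tb _ a3
      have t2 : |(t w'.1.1.2 : ℝ)| ≤ M := by exact_mod_cast H.tb _ b3
      refine (abs_sub _ _).trans ?_
      linarith
    · rw [hbad] at hb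
      push Not at hb
      have z0 : t w.1.1.1.1 = t w'.1.1.1.1 := (Prod.ext_iff.mp hz).1
      have z2 : Z w = Z w' := (Prod.ext_iff.mp hz).2
      rw [hZ] at z2
      have z1 : yy M X E (L w.2) (t w.2) = yy M X E (L w'.2) (t w'.2) := (Prod.ext_iff.mp z2).1
      have z2' := (Prod.ext_iff.mp z2).2
      have z3 : t w.2 = t w'.2 := (Prod.ext_iff.mp z2').1
      have z4 : Ep (L w.1.2) = Ep (L w'.1.2) := (Prod.ext_iff.mp (Prod.ext_iff.mp z2').2).1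
      have z5 : Ep (L w.1.1.1.2) = Ep (L w'.1.1.1.2) :=
        (Prod.ext_iff.mp (Prod.ext_iff.mp (Prod.ext_iff.mp z2').2).2).1
      have z6 : L w.1.1.1.1 = L w'.1.1.1.1 :=
        (Prod.ext_iff.mp (Prod.ext_iff.mp (Prod.ext_iff.mp z2').2).2).2
      have z4 := H.ed _ _ a4 b4 z4
      have z5 := H.ed _ _ a2 b2 z5
      have d1 := H.dis a1 a2 a3 a4 (Prod.ext_iff.mp a6).2 a7 (Prod.ext_iff.mp a8).2 (t w.2) 0
      have d2 := H.dis b1 b2 b3 b4 (Prod.ext_iff.mp b6).2 b7 (Prod.ext_iff.mp b8).2 (t w'.2) 0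
      have z7 : ⌊(X (L w.2) 0 : ℝ) + t w.2 * E (L w.2) 0 / M⌋ =
        ⌊(X (L w'.2) 0 : ℝ) + t w'.2 * E (L w'.2) 0 / M⌋ := congrFun z1 0
      rw [← a9, ← b9] at z7
      have g1 := Int.floor_le ((X (L w.1.2) 0 : ℝ) + t w.2 * E (L w.1.2) 0 / M)
      have g2 := Int.lt_floor_add_one ((X (L w.1.2) 0 : ℝ) + t w.2 * E (L w.1.2) 0 / M)
      have g3 := Int.floor_le ((X (L w'.1.2) 0 : ℝ) + t w'.2 * E (L w'.1.2) 0 / M)
      have g4 := Int.lt_floor_add_one ((X (L w'.1.2) 0 : ℝ) + t w'.2 * E (L w'.1.2) 0 / M)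
      rw [← z7] at g3 g4
      rw [← z0, ← z3, ← z4, ← z5, ← z6] at d2
      rw [abs_le] at d1 d2
      have k1 : |((t w.1.1.2 : ℝ) - t w'.1.1.2) * ((E (L w.1.2) 0 : ℝ) - E (L w.1.1.1.2) 0) / M| ≤
          4 * K + 1 := by
        have e5 : ((t w.1.1.2 : ℝ) - t w'.1.1.2) *
            ((E (L w.1.2) 0 : ℝ) - E (L w.1.1.1.2) 0) / M =
            ((X (L w.1.1.1.1) 0 : ℝ) + (t w.1.1.1.1 * E (L w.1.1.1.1) 0 +
              (t w'.1.1.2 - t w.1.1.1.1) * E (L w.1.1.1.2) 0 +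
              (t w.2 - t w'.1.1.2) * E (L w.1.2) 0) / M) -
            ((X (L w.1.1.1.1) 0 : ℝ) + (t w.1.1.1.1 * E (L w.1.1.1.1) 0 +
              (t w.1.1.2 - t w.1.1.1.1) * E (L w.1.1.1.2) 0 +
              (t w.2 - t w.1.1.2) * E (L w.1.2) 0) / M) := by ring
        rw [e5, abs_le]
        rw [← z3, ← z4] at g3 g4
        constructor <;> linarith [d1.1, d1.2, d2.1, d2.2]
      rw [abs_div, abs_mul, abs_of_pos hM0, div_le_iff₀ hM0] at k1
      rw [le_div_iff₀ hB]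
      refine le_trans ?_ k1
      exact mul_le_mul_of_nonneg_left hb (abs_nonneg _)
  have s7 : Ex P (fun w => Real.log (2 * (if bad w then 2 * (M : ℝ) else (4 * K + 1) * M / B) + 1))
      ≤ Real.log (2 * ((4 * K + 1) * M / B) + 1) + δ * Real.log (4 * M + 1) := by
    have hb1 : Pb P bad ≤ δ := by
      refine le_trans ?_ hal
      rw [← Pb_marg (P4_pair hp L (GA L G A) (GA L G A))
        (fun w => |(E (L w.2) 0 : ℝ) - E (L w.1) 0| < B), ← hP]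
      refine Pb_imp hP0 fun w hw hb => ?_
      rw [hbad] at hb
      have h1 := (hsup w hw).2.2.1
      show |(E (L w.1.2) 0 : ℝ) - E (L w.1.1.2) 0| < B
      rw [← h1]
      exact hb
    have hl1 : 0 ≤ Real.log (4 * M + 1) := Real.log_nonneg (by linarith)
    have hl2 : 0 ≤ Real.log (2 * ((4 * K + 1) * M / B) + 1) := Real.log_nonneg (by linarith)
    have h1 : Ex P (fun w => Real.log (2 * (if bad w then 2 * (M : ℝ) else
        (4 * K + 1) * M / B) + 1)) ≤ Ex P (fun w => Real.log (2 * ((4 * K + 1) * M / B) + 1) +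
          (if bad w then 1 else 0) * Real.log (4 * M + 1)) := by
      refine Ex_mono hP0 fun w _ => ?_
      split_ifs
      · have e5 : 2 * (2 * (M : ℝ)) + 1 = 4 * M + 1 := by ring
        rw [e5]
        linarith
      · linarith
    refine h1.trans ?_
    have h2 : Ex P (fun w => Real.log (2 * ((4 * K + 1) * M / B) + 1) +
        (if bad w then 1 else 0) * Real.log (4 * M + 1)) =
        Real.log (2 * ((4 * K + 1) * M / B) + 1) + Pb P bad * Real.log (4 * M + 1) := by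
      rw [← Pb_sum P bad]
      unfold Ex
      simp_rw [mul_add]
      rw [Finset.sum_add_distrib, ← Finset.sum_mul, hPl.sum_one, one_mul]
      congr 1
      rw [Finset.sum_mul]
      refine Finset.sum_congr rfl fun w _ => ?_
      split_ifs <;> ring
    rw [h2]
    have := mul_le_mul_of_nonneg_right hb1 hl1
    linarith
  push_cast at hf
  linarith

open Classical in
/-- **Two velocities**: three lines of two hops are in general position. -/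
theorem m_two (hp : IsLaw p) (hM : 1 ≤ M) {X E : Λ → Fin 2 → ℤ}
    (H : MdH p M K 2 e F L t G C A Ep X E) {K₁ : ℕ} (hK₁ : 1 ≤ K₁)
    (hv : ∀ ω ω', 0 < p ω → 0 < p ω' → C (L ω) = C (L ω') → ∀ i,
      |(E (L ω) i : ℝ) - E (L ω') i| ≤ K₁ * M)
    {ρ δ : ℝ} (hρ : 0 < ρ)
    (hgp : Pb (P4 p L (GA L G A) (GA L G A)) (fun w =>
      |((E (L w.1.1.1.1) 0 : ℝ) - E (L w.1.1.1.2) 0) * (E (L w.1.1.1.2) 1 - E (L w.1.2) 1) -
        (E (L w.1.1.1.2) 0 - E (L w.1.2) 0) * (E (L w.1.1.1.1) 1 - E (L w.1.1.1.2) 1)| <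
        ρ * M ^ 2) ≤ δ) :
    2 * Real.log (2 * M + 1) - (14 * e + 2 * δ * Real.log (2 * M + 1) +
      Real.log (1 + (2 + 8 * (2 * K + 1) + 8 * (2 * K + 1) ^ 2) * K₁ ^ 2 / ρ) +
      2 * Real.log (2 * K + 3)) ≤
    CH p (fun ω => X (L ω)) (fun ω => (A (L ω), (Ep (L ω), C (L ω)))) := by
  have hMr : (1 : ℝ) ≤ M := by exact_mod_cast hM
  have hM0 : (0 : ℝ) < M := by linarith
  have hK₁r : (1 : ℝ) ≤ K₁ := by exact_mod_cast hK₁
  have hc := H.core hp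
  have hf := H.fin hp
  obtain ⟨P, hP⟩ : ∃ P, P = P4 p L (GA L G A) (GA L G A) := ⟨_, rfl⟩
  have hPl : IsLaw P := by rw [hP]; exact P4_law hp L _ _
  have hP0 := hPl.nonneg
  rw [← hP] at hc hgp
  have hsup : ∀ w, 0 < P w → (0 < p w.1.1.1.1 ∧ 0 < p w.1.1.1.2 ∧ 0 < p w.1.1.2 ∧
      0 < p w.1.2 ∧ 0 < p w.2) ∧ GA L G A w.1.1.1.1 = GA L G A w.1.1.1.2 ∧
      L w.1.1.1.2 = L w.1.1.2 ∧ GA L G A w.1.1.2 = GA L G A w.1.2 ∧ L w.1.2 = L w.2 := by
    intro w hw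
    rw [hP] at hw
    exact MdH.sup hp hw
  obtain ⟨Z, hZ⟩ : ∃ Z : (((Ω × Ω) × Ω) × Ω) × Ω → (Fin 2 → ℤ) × (ℤ × (ℰ × (ℰ × Λ))),
    Z = fun w => (yy M X E (L w.2) (t w.2), zd L t Ep w) := ⟨_, rfl⟩
  rw [← hZ] at hc
  obtain ⟨bad, hbad⟩ : ∃ bad : (((Ω × Ω) × Ω) × Ω) × Ω → Prop, bad = fun w =>
      |((E (L w.1.1.1.1) 0 : ℝ) - E (L w.1.1.1.2) 0) * (E (L w.1.1.1.2) 1 - E (L w.1.2) 1) -
        (E (L w.1.1.1.2) 0 - E (L w.1.2) 0) * (E (L w.1.1.1.1) 1 - E (L w.1.1.1.2) 1)| <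
        ρ * M ^ 2 := ⟨_, rfl⟩
  rw [← hbad] at hgp
  -- the pairs of times
  obtain ⟨FF, hFF⟩ : ∃ FF : (Fin 2 → ℤ) × (ℤ × (ℰ × (ℰ × Λ))) → Finset (ℤ × ℤ), FF = fun z =>
    ((Finset.Icc (-(M : ℤ)) M) ×ˢ (Finset.Icc (-(M : ℤ)) M)).filter fun a =>
      ∃ w, 0 < P w ∧ Z w = z ∧ (t w.1.1.1.1, t w.1.1.2) = a := ⟨_, rfl⟩
  have hF : ∀ w, 0 < P w → (t w.1.1.1.1, t w.1.1.2) ∈ FF (Z w) := by
    intro w hw
    rw [hFF]
    obtain ⟨⟨a1, a2, a3, a4, a5⟩, -⟩ := hsup w hw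
    refine Finset.mem_filter.mpr ⟨Finset.mem_product.mpr ⟨?_, ?_⟩, w, hw, rfl, rfl⟩
    · have := abs_le.mp (H.tb _ a1)
      exact Finset.mem_Icc.mpr this
    · have := abs_le.mp (H.tb _ a3)
      exact Finset.mem_Icc.mpr this
  have hb2 : ∀ w, 0 < P w → ((FF (Z w)).card : ℝ) ≤ (2 * M + 1) ^ 2 := by
    intro w _
    have h1 : (FF (Z w)).card ≤ ((Finset.Icc (-(M : ℤ)) M) ×ˢ (Finset.Icc (-(M : ℤ)) M)).card := by
      rw [hFF]
      exact Finset.card_le_card (Finset.filter_subset _ _)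
    have h2 : (Finset.Icc (-(M : ℤ)) M).card = 2 * M + 1 := by
      rw [Int.card_Icc]
      omega
    rw [Finset.card_product, h2] at h1
    have h3 : ((FF (Z w)).card : ℝ) ≤ (((2 * M + 1) * (2 * M + 1) : ℕ) : ℝ) := by exact_mod_cast h1
    refine h3.trans (le_of_eq ?_)
    push_cast
    ring
  have hb1 : ∀ w, 0 < P w → ¬ bad w → ((FF (Z w)).card : ℝ) ≤
      1 + (2 + 8 * (2 * K + 1) + 8 * (2 * K + 1) ^ 2) * K₁ ^ 2 / ρ := by
    intro w hw hb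
    obtain ⟨⟨a1, a2, a3, a4, a5⟩, a6, a7, a8, a9⟩ := hsup w hw
    rw [hbad] at hb
    push Not at hb
    -- the window data agree
    have c1 : C (L w.1.1.1.1) = C (L w.1.1.1.2) := (H.gt _ _ a1 a2 (Prod.ext_iff.mp a6).2).2.1
    have c2 : C (L w.1.1.1.2) = C (L w.1.2) := by
      rw [a7]
      exact (H.gt _ _ a3 a4 (Prod.ext_iff.mp a8).2).2.1
    have v1 := hv _ _ a1 a2 c1
    have v2 := hv _ _ a2 a4 c2
    have hKM : 1 ≤ K₁ * M := Nat.one_le_iff_ne_zero.mpr (by positivity)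
    have key := cnt_det (M := K₁ * M) hKM (K := 2 * K + 1)
      (x₁ := (E (L w.1.1.1.1) 0 : ℝ) - E (L w.1.1.1.2) 0)
      (x₂ := (E (L w.1.1.1.2) 0 : ℝ) - E (L w.1.2) 0)
      (y₁ := (E (L w.1.1.1.1) 1 : ℝ) - E (L w.1.1.1.2) 1)
      (y₂ := (E (L w.1.1.1.2) 1 : ℝ) - E (L w.1.2) 1)
      (α := M * (yy M X E (L w.2) (t w.2) 0 - X (L w.1.1.1.1) 0) - t w.2 * E (L w.1.2) 0)
      (β := M * (yy M X E (L w.2) (t w.2) 1 - X (L w.1.1.1.1) 1) - t w.2 * E (L w.1.2) 1)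
      (by positivity) (by push_cast; exact v1 0) (by push_cast; exact v2 0)
      (by push_cast; exact v1 1) (by push_cast; exact v2 1)
      (lt_of_lt_of_le (by positivity) hb) (FF (Z w)) (by
        intro a ha
        rw [hFF] at ha
        obtain ⟨-, w', hw', hz, hta⟩ := Finset.mem_filter.mp ha
        obtain ⟨⟨b1, b2, b3, b4, b5⟩, b6, b7, b8, b9⟩ := hsup w' hw'
        rw [hZ] at hz
        have z1 : yy M X E (L w'.2) (t w'.2) = yy M X E (L w.2) (t w.2) := (Prod.ext_iff.mp hz).1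
        have z2' := (Prod.ext_iff.mp hz).2
        have z3 : t w'.2 = t w.2 := (Prod.ext_iff.mp z2').1
        have z4 : Ep (L w'.1.2) = Ep (L w.1.2) := (Prod.ext_iff.mp (Prod.ext_iff.mp z2').2).1
        have z5 : Ep (L w'.1.1.1.2) = Ep (L w.1.1.1.2) :=
          (Prod.ext_iff.mp (Prod.ext_iff.mp (Prod.ext_iff.mp z2').2).2).1
        have z6 : L w'.1.1.1.1 = L w.1.1.1.1 :=
          (Prod.ext_iff.mp (Prod.ext_iff.mp (Prod.ext_iff.mp z2').2).2).2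
        have z4 := H.ed _ _ b4 a4 z4
        have z5 := H.ed _ _ b2 a2 z5
        have q1 : t w'.1.1.1.1 = a.1 := congrArg Prod.fst hta
        have q2 : t w'.1.1.2 = a.2 := congrArg Prod.snd hta
        have main : ∀ i, |((E (L w.1.1.1.1) i : ℝ) - E (L w.1.1.1.2) i) * a.1 +
            ((E (L w.1.1.1.2) i : ℝ) - E (L w.1.2) i) * a.2 -
            (M * (yy M X E (L w.2) (t w.2) i - X (L w.1.1.1.1) i) - t w.2 * E (L w.1.2) i)| ≤
            (2 * K + 1) * ((K₁ * M : ℕ) : ℝ) := by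
          intro i
          have d2 := H.dis b1 b2 b3 b4 (Prod.ext_iff.mp b6).2 b7 (Prod.ext_iff.mp b8).2
            (t w'.2) i
          rw [b9, z3] at d2
          rw [← b9, z4, z5, z6, q1, q2] at d2
          have z7 := congrFun z1 i
          have g1 : (yy M X E (L w'.2) (t w'.2) i : ℝ) ≤
              (X (L w'.1.2) i : ℝ) + t w.2 * E (L w.1.2) i / M := by
            rw [← z4, b9, ← z3]
            exact Int.floor_le _
          have g2 : (X (L w'.1.2) i : ℝ) + t w.2 * E (L w.1.2) i / M <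
              (yy M X E (L w'.2) (t w'.2) i : ℝ) + 1 := by
            rw [← z4, b9, ← z3]
            exact Int.lt_floor_add_one _
          rw [z7] at g1 g2
          have e6 : ((E (L w.1.1.1.1) i : ℝ) - E (L w.1.1.1.2) i) * a.1 +
            ((E (L w.1.1.1.2) i : ℝ) - E (L w.1.2) i) * a.2 -
            (M * (yy M X E (L w.2) (t w.2) i - X (L w.1.1.1.1) i) - t w.2 * E (L w.1.2) i) =
            M * (((X (L w.1.1.1.1) i : ℝ) + (a.1 * E (L w.1.1.1.1) i +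
              (a.2 - a.1) * E (L w.1.1.1.2) i + (t w.2 - a.2) * E (L w.1.2) i) / M) -
              yy M X E (L w.2) (t w.2) i) := by
            field_simp
            ring
          rw [e6, abs_mul, abs_of_pos hM0]
          have h8 : |((X (L w.1.1.1.1) i : ℝ) + (a.1 * E (L w.1.1.1.1) i +
              (a.2 - a.1) * E (L w.1.1.1.2) i + (t w.2 - a.2) * E (L w.1.2) i) / M) -
              yy M X E (L w.2) (t w.2) i| ≤ 2 * K + 1 := by
            rw [abs_le] at d2 ⊢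
            constructor <;> linarith [d2.1, d2.2]
          have h9 : (M : ℝ) ≤ ((K₁ * M : ℕ) : ℝ) := by
            push_cast
            nlinarith
          calc (M : ℝ) * _ ≤ M * (2 * K + 1) := mul_le_mul_of_nonneg_left h8 hM0.le
            _ = (2 * K + 1) * M := by ring
            _ ≤ _ := mul_le_mul_of_nonneg_left h9 (by positivity)
        exact ⟨main 0, main 1⟩)
    refine key.trans ?_
    have h10 : (2 + 8 * (2 * (K : ℝ) + 1) + 8 * (2 * K + 1) ^ 2) * ((K₁ * M : ℕ) : ℝ) ^ 2 /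
        |((E (L w.1.1.1.1) 0 : ℝ) - E (L w.1.1.1.2) 0) * (E (L w.1.1.1.2) 1 - E (L w.1.2) 1) -
        (E (L w.1.1.1.2) 0 - E (L w.1.2) 0) * (E (L w.1.1.1.1) 1 - E (L w.1.1.1.2) 1)| ≤
        (2 + 8 * (2 * (K : ℝ) + 1) + 8 * (2 * K + 1) ^ 2) * ((K₁ * M : ℕ) : ℝ) ^ 2 /
        (ρ * M ^ 2) := div_le_div_of_nonneg_left (by positivity) (by positivity) hb
    refine h10.trans ?_
    have h11 : (2 + 8 * (2 * (K : ℝ) + 1) + 8 * (2 * K + 1) ^ 2) * ((K₁ * M : ℕ) : ℝ) ^ 2 /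
        (ρ * M ^ 2) = (2 + 8 * (2 * (K : ℝ) + 1) + 8 * (2 * K + 1) ^ 2) * K₁ ^ 2 / ρ := by
      push_cast
      field_simp
    rw [h11]
    linarith
  have s6 := ch_bad hPl (fun w : (((Ω × Ω) × Ω) × Ω) × Ω => (t w.1.1.1.1, t w.1.1.2)) Z FF hF bad
    (a := 1 + (2 + 8 * (2 * K + 1) + 8 * (2 * K + 1) ^ 2) * K₁ ^ 2 / ρ) (b := (2 * M + 1) ^ 2)
    (by
      have : (0 : ℝ) ≤ (2 + 8 * (2 * K + 1) + 8 * (2 * K + 1) ^ 2) * K₁ ^ 2 / ρ := by positivity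
      linarith) (by nlinarith) hb1 hb2 hgp
  rw [Real.log_pow] at s6
  push_cast at s6 hf
  linarith

end

end Pool.MM91
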